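import Pool.Agent.Lib.MP_3ee548_nt.RS.Iface

/-!
Module INTB of the RS board: dyadic fourth moment of the weighted sum over reciprocals.
-/

set_option autoImplicit false

open scoped BigOperators
open Classical

namespace Pool.Agent.Lib.MP_3ee548_nt.RS.H76

open Pool.Agent.Lib.MP_3ee548_nt.RS

theorem pow4_le (δ : ℝ) (hδ : 0 < δ) : ∃ C : ℝ, 0 < C ∧ ∀ j : ℕ,
    ((j : ℝ) + 1) ^ 4 ≤ C * ((2 : ℝ) ^ j) ^ δ := by
  have hl : 0 < Real.log 2 := Real.log_pos (by norm_num)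
  have hq : 0 < δ * Real.log 2 := mul_pos hδ hl
  refine ⟨24 * Real.exp (δ * Real.log 2) / (δ * Real.log 2) ^ 4, by positivity, fun j => ?_⟩
  have h1 : (δ * Real.log 2 * ((j : ℝ) + 1)) ^ 4 / (Nat.factorial 4 : ℝ)
      ≤ Real.exp (δ * Real.log 2 * ((j : ℝ) + 1)) :=
    Real.pow_div_factorial_le_exp _ (by positivity) 4
  have h2 : ((2 : ℝ) ^ j) ^ δ = Real.exp (δ * Real.log 2 * j) := by
    rw [← Real.rpow_natCast, ← Real.rpow_mul (by norm_num), Real.rpow_def_of_pos (by norm_num)]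
    ring_nf
  have h3 : Real.exp (δ * Real.log 2 * ((j : ℝ) + 1))
      = Real.exp (δ * Real.log 2) * Real.exp (δ * Real.log 2 * j) := by
    rw [← Real.exp_add]; ring_nf
  have h4 : (Nat.factorial 4 : ℝ) = 24 := by norm_num [Nat.factorial]
  rw [h3, h4, div_le_iff₀ (by norm_num), mul_pow] at h1
  rw [h2, div_mul_eq_mul_div, le_div_iff₀ (by positivity)]
  nlinarith [h1]

theorem geo_sum (c : ℝ) (hc : 0 < c) (M : ℕ) :
    ∑ j ∈ Finset.range M, ((2 : ℝ) ^ j * c) / ((1 + 2 * ((2 : ℝ) ^ j * c)) * (1 + (2 : ℝ) ^ j * c))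
      ≤ 1 := by
  have h : ∀ M : ℕ, ∑ j ∈ Finset.range M,
      ((2 : ℝ) ^ j * c) / ((1 + 2 * ((2 : ℝ) ^ j * c)) * (1 + (2 : ℝ) ^ j * c))
      = ((2 : ℝ) ^ M * c) / (1 + (2 : ℝ) ^ M * c) - c / (1 + c) := by
    intro M
    induction M with
    | zero => simp
    | succ n ih =>
      rw [Finset.sum_range_succ, ih]
      obtain ⟨x, hx⟩ : ∃ x, x = (2 : ℝ) ^ n * c := ⟨_, rfl⟩
      have hx0 : 0 < x := by rw [hx]; positivity
      have e1 : (2 : ℝ) ^ (n + 1) * c = 2 * x := by rw [hx]; ring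
      rw [e1, ← hx]
      have h1 : (1 + x) ≠ 0 := by positivity
      have h2 : (1 + 2 * x) ≠ 0 := by positivity
      have h3 : (1 + c) ≠ 0 := by positivity
      field_simp
      ring
  rw [h M]
  have h1 : ((2 : ℝ) ^ M * c) / (1 + (2 : ℝ) ^ M * c) ≤ 1 := by
    rw [div_le_one (by positivity)]; linarith
  have h2 : 0 ≤ c / (1 + c) := by positivity
  linarith

theorem exists_pow_exp : ∃ G : ℝ, 0 < G ∧ ∀ y : ℝ, 0 < y →
    (1 + y) ^ 13 * Real.exp (-(y / 2)) ≤ G := by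
  refine ⟨2 ^ 13 * (Nat.factorial 13 : ℝ) * Real.exp (1 / 2), by positivity, fun y hy => ?_⟩
  have g1 : ((1 + y) / 2) ^ 13 / (Nat.factorial 13 : ℝ) ≤ Real.exp ((1 + y) / 2) :=
    Real.pow_div_factorial_le_exp _ (by positivity) 13
  have hF : (0 : ℝ) < (Nat.factorial 13 : ℝ) := by positivity
  obtain ⟨F, hFd⟩ : ∃ F : ℝ, F = (Nat.factorial 13 : ℝ) := ⟨_, rfl⟩
  rw [← hFd] at g1 hF ⊢
  rw [div_le_iff₀ hF, div_pow] at g1
  have g3 : Real.exp ((1 + y) / 2) = Real.exp (1 / 2) * Real.exp (y / 2) := by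
    rw [← Real.exp_add]; ring_nf
  have g4 : Real.exp (y / 2) * Real.exp (-(y / 2)) = 1 := by
    rw [← Real.exp_add]; simp
  rw [g3] at g1
  have g5 : (1 + y) ^ 13 ≤ 2 ^ 13 * F * Real.exp (1 / 2) * Real.exp (y / 2) := by
    rw [div_le_iff₀ (by norm_num)] at g1
    calc (1 + y) ^ 13 ≤ Real.exp (1 / 2) * Real.exp (y / 2) * F * 2 ^ 13 := g1
      _ = _ := by ring
  calc (1 + y) ^ 13 * Real.exp (-(y / 2))
      ≤ (2 ^ 13 * F * Real.exp (1 / 2) * Real.exp (y / 2)) * Real.exp (-(y / 2)) :=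
        mul_le_mul_of_nonneg_right g5 (Real.exp_pos _).le
    _ = 2 ^ 13 * F * Real.exp (1 / 2) * (Real.exp (y / 2) * Real.exp (-(y / 2))) := by ring
    _ = _ := by rw [g4, mul_one]

theorem wt_bound (G : ℝ) (hG : ∀ y : ℝ, 0 < y → (1 + y) ^ 13 * Real.exp (-(y / 2)) ≤ G)
    (y a : ℝ) (hy : 0 < y) (ha : 1 ≤ a) (ha4 : a ≤ 4) :
    Real.exp (-(1 / 2 * (y + 1 / y))) * (1 + y ^ 3) * (y ^ 2) ^ a ≤
      (2 * G) * (y ^ 2 / ((1 + 2 * y ^ 2) * (1 + y ^ 2))) := by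
  have hy1 : 0 < 1 + y := by linarith
  have h1 : Real.exp (-(1 / 2 * (y + 1 / y))) ≤ Real.exp (-(y / 2)) := by
    apply Real.exp_le_exp.mpr
    have : 0 < 1 / y := by positivity
    linarith
  have h2 : 1 + y ^ 3 ≤ (1 + y) ^ 3 := by nlinarith [hy, mul_pos hy hy]
  have h3 : (y ^ 2) ^ a ≤ y ^ 2 * (1 + y) ^ 6 := by
    have hy2 : 0 < y ^ 2 := by positivity
    have e1 : (y ^ 2) ^ a = y ^ 2 * (y ^ 2) ^ (a - 1) := by
      rw [← Real.rpow_one_add' hy2.le (by linarith)]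
      congr 1; ring
    rw [e1]
    apply mul_le_mul_of_nonneg_left _ hy2.le
    have hle : y ^ 2 ≤ (1 + y) ^ 2 := by nlinarith
    have h1le : 1 ≤ (1 + y) ^ 2 := by nlinarith
    calc (y ^ 2) ^ (a - 1) ≤ ((1 + y) ^ 2) ^ (a - 1) := Real.rpow_le_rpow hy2.le hle (by linarith)
      _ ≤ ((1 + y) ^ 2) ^ (3 : ℝ) := Real.rpow_le_rpow_of_exponent_le h1le (by linarith)
      _ = ((1 + y) ^ 2) ^ 3 := by norm_cast
      _ = (1 + y) ^ 6 := by ring
  have h4 := hG y hy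
  rw [← mul_div_assoc, le_div_iff₀ (by positivity)]
  have h5 : 1 + 2 * y ^ 2 ≤ 2 * (1 + y) ^ 2 := by nlinarith
  have h6 : 1 + y ^ 2 ≤ (1 + y) ^ 2 := by nlinarith
  calc Real.exp (-(1 / 2 * (y + 1 / y))) * (1 + y ^ 3) * (y ^ 2) ^ a *
        ((1 + 2 * y ^ 2) * (1 + y ^ 2))
      ≤ Real.exp (-(y / 2)) * (1 + y) ^ 3 * (y ^ 2 * (1 + y) ^ 6) *
          ((2 * (1 + y) ^ 2) * (1 + y) ^ 2) := by
        gcongr
    _ = 2 * y ^ 2 * ((1 + y) ^ 13 * Real.exp (-(y / 2))) := by ring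
    _ ≤ 2 * y ^ 2 * G := mul_le_mul_of_nonneg_left h4 (by positivity)
    _ = _ := by ring

theorem continuous_e : Continuous e := by
  unfold e
  fun_prop

theorem continuous_SB (k : ℕ) : Continuous (fun t => SB k t) := by
  unfold SB
  refine continuous_finsetSum _ fun m _ => ?_
  exact continuous_const.mul (continuous_e.comp (continuous_id.mul continuous_const))

theorem continuous_Bmax (lam : ℕ → ℝ) (k : ℕ) : Continuous (fun t => Bmax lam k t) := by
  unfold Bmax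
  refine continuous_const.mul ?_
  refine continuous_finsetSum _ fun l _ => continuous_finsetSum _ fun j _ => ?_
  refine (continuous_norm.comp ?_).pow 4
  refine continuous_finsetSum _ fun m _ => ?_
  exact continuous_e.comp (continuous_id.mul continuous_const)

theorem Bmax_nonneg (lam : ℕ → ℝ) (k : ℕ) (t : ℝ) : 0 ≤ Bmax lam k t := by
  unfold Bmax
  refine mul_nonneg (by positivity) ?_
  refine Finset.sum_nonneg fun l _ => Finset.sum_nonneg fun j _ => by positivity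

theorem Q_nonneg (lam : ℕ → ℝ) (D : Finset ℕ) (T : ℝ) : 0 ≤ Q lam D T := by
  unfold Q PC
  positivity

/-- the change of variables. -/
theorem int_rt (lam : ℕ → ℝ) (j : ℕ) (r : ℝ) (hr : 0 < r) :
    ∫ t in (r ^ 2)..(2 * r ^ 2), Bmax lam j (2 * Real.sqrt t)
      ≤ (2 * r) * ∫ x in (-(4 * r))..(4 * r), Bmax lam j x := by
  have hB := continuous_Bmax lam j
  obtain ⟨q, hq⟩ : ∃ q : ℝ, q = Real.sqrt 2 := ⟨_, rfl⟩
  have hq2 : q ^ 2 = 2 := by rw [hq]; exact Real.sq_sqrt (by norm_num)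
  have hq0 : 0 < q := by rw [hq]; positivity
  have hq1 : 1 ≤ q := by nlinarith
  have hq3 : q ≤ 2 := by nlinarith
  have hg : Continuous (fun t : ℝ => Bmax lam j (2 * Real.sqrt t)) := hB.comp (by fun_prop)
  have h2 : ∫ u in (2 * r)..(2 * r * q), Bmax lam j (2 * Real.sqrt (u ^ 2 / 4)) * (u / 2)
      = ∫ t in (r ^ 2)..(2 * r ^ 2), Bmax lam j (2 * Real.sqrt t) := by
    have := intervalIntegral.integral_comp_mul_deriv (a := 2 * r) (b := 2 * r * q)
      (f := fun t : ℝ => t ^ 2 / 4) (f' := fun t : ℝ => t / 2)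
      (g := fun t : ℝ => Bmax lam j (2 * Real.sqrt t))
      (fun t _ => by
        have := ((hasDerivAt_id t).pow 2).div_const 4
        simp at this
        refine this.congr_deriv ?_
        ring)
      (by fun_prop) hg
    have e1 : (2 * r) ^ 2 / 4 = r ^ 2 := by ring
    have e2 : (2 * r * q) ^ 2 / 4 = 2 * r ^ 2 := by
      rw [mul_pow, hq2]; ring
    rw [e1, e2] at this
    simpa [Function.comp] using this
  rw [← h2]
  have hle : 2 * r ≤ 2 * r * q := by nlinarith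
  have h3 : ∫ u in (2 * r)..(2 * r * q), Bmax lam j (2 * Real.sqrt (u ^ 2 / 4)) * (u / 2)
      ≤ ∫ u in (2 * r)..(2 * r * q), (2 * r) * Bmax lam j u := by
    apply intervalIntegral.integral_mono_on hle
    · refine Continuous.intervalIntegrable ?_ _ _
      exact (hB.comp (by fun_prop)).mul (by fun_prop)
    · exact (continuous_const.mul hB).intervalIntegrable _ _
    · intro u hu
      have hu1 : 2 * r ≤ u := hu.1
      have hu2 : u ≤ 2 * r * q := hu.2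
      have hu0 : 0 < u := by linarith
      have e1 : 2 * Real.sqrt (u ^ 2 / 4) = u := by
        have : u ^ 2 / 4 = (u / 2) ^ 2 := by ring
        rw [this, Real.sqrt_sq (by linarith)]; ring
      rw [e1, mul_comm]
      apply mul_le_mul_of_nonneg_right _ (Bmax_nonneg lam j u)
      nlinarith
  have h4 : ∫ u in (2 * r)..(2 * r * q), Bmax lam j u
      ≤ ∫ x in (-(4 * r))..(4 * r), Bmax lam j x := by
    apply intervalIntegral.integral_mono_interval
    · linarith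
    · exact hle
    · nlinarith
    · exact Filter.Eventually.of_forall (fun x => Bmax_nonneg lam j x)
    · exact hB.intervalIntegrable _ _
  rw [intervalIntegral.integral_const_mul] at h3
  exact h3.trans (mul_le_mul_of_nonneg_left h4 (by positivity))

theorem Qsqf_bound (h3 : CovStatement) (b δ C4 : ℝ)
    (hQ : ∀ k : ℕ, Q sqf (blk k) (((2 : ℝ) ^ k) ^ (3 / 2 : ℝ)) ≤ C4 * ((2 : ℝ) ^ k) ^ (b + δ))
    (j : ℕ) (T s : ℝ) (hT : 0 < T) (hs : s = Real.sqrt ((2 : ℝ) ^ j)) :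
    Q sqf (blk j) T ≤ 4 * (1 + s ^ 3 / T) * (C4 * ((2 : ℝ) ^ j) ^ (b + δ)) := by
  have hp : (0 : ℝ) < (2 : ℝ) ^ j := by positivity
  have e3 : ((2 : ℝ) ^ j) ^ (3 / 2 : ℝ) = s ^ 3 := by
    rw [hs, Real.sqrt_eq_rpow, ← Real.rpow_natCast (((2 : ℝ) ^ j) ^ (1 / 2 : ℝ)),
      ← Real.rpow_mul hp.le]
    norm_num
  have h := h3 (ℕ × ℕ) (fun p : ℕ × ℕ => sqf p.1 + sqf p.2) (blk j ×ˢ blk j) T
    (((2 : ℝ) ^ j) ^ (3 / 2 : ℝ)) hT (by positivity)
  have h' := hQ j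
  have hc : 0 ≤ 4 * (1 + ((2 : ℝ) ^ j) ^ (3 / 2 : ℝ) / T) := by positivity
  calc Q sqf (blk j) T ≤ 4 * (1 + ((2 : ℝ) ^ j) ^ (3 / 2 : ℝ) / T) *
        Q sqf (blk j) (((2 : ℝ) ^ j) ^ (3 / 2 : ℝ)) := h
    _ ≤ 4 * (1 + ((2 : ℝ) ^ j) ^ (3 / 2 : ℝ) / T) * (C4 * ((2 : ℝ) ^ j) ^ (b + δ)) :=
        mul_le_mul_of_nonneg_left h' hc
    _ = _ := by rw [e3]

theorem exp_cmp (c τ t : ℝ) (hc : 0 < c) (hτ : 0 < τ) (h1 : τ ≤ t) (h2 : t ≤ 2 * τ) :
    Real.exp (-(c / t + t / c)) ≤ Real.exp (-(1 / 2 * (c / τ + 1 / (c / τ)))) := by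
  apply Real.exp_le_exp.mpr
  have ht : 0 < t := lt_of_lt_of_le hτ h1
  have g1 : 1 / 2 * (c / τ) ≤ c / t := by
    have : 1 / 2 * (c / τ) = c / (2 * τ) := by field_simp
    rw [this]
    exact div_le_div_of_nonneg_left hc.le ht h2
  have g2 : 1 / (c / τ) ≤ t / c := by
    rw [one_div_div]
    exact div_le_div_of_nonneg_right h1 hc.le
  have g3 : 0 < 1 / (c / τ) := by positivity
  linarith

theorem intb (h1 : CasebStatement) (h2 : MaxbStatement) (h3 : CovStatement) : IntbStatement := by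
  intro b hb2 hb3 hPA ε hε
  obtain ⟨C1, hC1, hA⟩ := h1
  obtain ⟨C3, hC3, hM⟩ := h2
  obtain ⟨δ, hδdef⟩ : ∃ δ, δ = min ε 1 / 2 := ⟨_, rfl⟩
  have hm1 : min ε 1 ≤ ε := min_le_left _ _
  have hm2 : min ε 1 ≤ 1 := min_le_right _ _
  have hm3 : 0 < min ε 1 := lt_min hε one_pos
  have hδ : 0 < δ := by rw [hδdef]; linarith
  have hδε : 2 * δ ≤ ε := by rw [hδdef]; linarith
  have hδ1 : 2 * δ ≤ 1 := by rw [hδdef]; linarith
  obtain ⟨C4, hC4, hQ⟩ := hPA δ hδ
  obtain ⟨C2, hC2, hP⟩ := pow4_le δ hδ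
  obtain ⟨G, hG0, hG⟩ := exists_pow_exp
  obtain ⟨W, hW⟩ : ∃ W : ℝ, W = 2 * G := ⟨_, rfl⟩
  have hW0 : 0 < W := by rw [hW]; positivity
  refine ⟨C1 * (1 + 32 * C2 * C3 * C4 * W), by positivity, fun k x hx1 hx2 => ?_⟩
  obtain ⟨K, hK⟩ : ∃ K : ℝ, K = (2 : ℝ) ^ k := ⟨_, rfl⟩
  have hK1 : 1 ≤ K := by rw [hK]; exact one_le_pow₀ (by norm_num)
  have hK0 : 0 < K := by linarith
  have hA' := hA k
  rw [← hK] at hx1 hx2 hA' ⊢
  have hx0 : 0 < x := by linarith
  obtain ⟨r, hr⟩ : ∃ r : ℝ, r = Real.sqrt x := ⟨_, rfl⟩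
  have hr0 : 0 < r := by rw [hr]; exact Real.sqrt_pos.mpr hx0
  have hrx : r ^ 2 = x := by rw [hr]; exact Real.sq_sqrt hx0.le
  -- the numbers y
  obtain ⟨s, hs⟩ : ∃ s : ℕ → ℝ, s = fun j => Real.sqrt ((2 : ℝ) ^ j) := ⟨_, rfl⟩
  have hs0 : ∀ j, 0 < s j := by intro j; rw [hs]; exact Real.sqrt_pos.mpr (by positivity)
  have hs2 : ∀ j, s j ^ 2 = (2 : ℝ) ^ j := by
    intro j; rw [hs]; exact Real.sq_sqrt (by positivity)
  obtain ⟨y, hy⟩ : ∃ y : ℕ → ℝ, y = fun j => K * s j / r := ⟨_, rfl⟩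
  have hy0 : ∀ j, 0 < y j := by
    intro j; rw [hy]; have := hs0 j; positivity
  obtain ⟨E, hE⟩ : ∃ E : ℕ → ℝ, E = fun j => Real.exp (-(1 / 2 * (y j + 1 / y j))) := ⟨_, rfl⟩
  have hE0 : ∀ j, 0 < E j := by intro j; rw [hE]; exact Real.exp_pos _
  -- pointwise
  have hpt : ∀ t ∈ Set.Icc x (2 * x), ‖SB k t‖ ^ 4 ≤ C1 * (K ^ 6 / x ^ 2) * (1 +
      ∑ j ∈ Finset.range (2 * k + 4), E j * Bmax sqf j (2 * Real.sqrt t)) := by
    intro t ht
    have ht1 : x ≤ t := ht.1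
    have ht2 : t ≤ 2 * x := ht.2
    have ht0 : 0 < t := by linarith
    have hrt1 : r ≤ Real.sqrt t := by rw [hr]; exact Real.sqrt_le_sqrt ht1
    have hrt2 : Real.sqrt t ≤ 2 * r := by
      have : (2 * r) ^ 2 = 4 * x := by rw [mul_pow, hrx]; ring
      apply Real.sqrt_le_iff.mpr
      refine ⟨by positivity, ?_⟩
      rw [this]; linarith
    refine (hA' t (by linarith) (by linarith)).trans ?_
    have g1 : K ^ 6 / t ^ 2 ≤ K ^ 6 / x ^ 2 :=
      div_le_div_of_nonneg_left (by positivity) (by positivity) (pow_le_pow_left₀ hx0.le ht1 2)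
    have g2 : ∑ j ∈ Finset.range (2 * k + 4),
        Real.exp (-(K * Real.sqrt ((2 : ℝ) ^ j) / Real.sqrt t
          + Real.sqrt t / (K * Real.sqrt ((2 : ℝ) ^ j))))
          * Bmax sqf j (2 * Real.sqrt t)
        ≤ ∑ j ∈ Finset.range (2 * k + 4), E j * Bmax sqf j (2 * Real.sqrt t) := by
      apply Finset.sum_le_sum
      intro j _
      apply mul_le_mul_of_nonneg_right _ (Bmax_nonneg sqf j _)
      rw [hE, hy, hs]
      exact exp_cmp (K * Real.sqrt ((2 : ℝ) ^ j)) r (Real.sqrt t) (by positivity) hr0 hrt1 hrt2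
    have g3 : 0 ≤ ∑ j ∈ Finset.range (2 * k + 4), E j * Bmax sqf j (2 * Real.sqrt t) :=
      Finset.sum_nonneg fun j _ => mul_nonneg (hE0 j).le (Bmax_nonneg sqf j _)
    calc _ ≤ C1 * (K ^ 6 / t ^ 2) * (1 +
          ∑ j ∈ Finset.range (2 * k + 4), E j * Bmax sqf j (2 * Real.sqrt t)) := by
          apply mul_le_mul_of_nonneg_left _ (by positivity)
          linarith
      _ ≤ _ := by
          apply mul_le_mul_of_nonneg_right _ (by linarith)
          exact mul_le_mul_of_nonneg_left g1 hC1.le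
  -- integrate
  have hcB : ∀ j, Continuous (fun t : ℝ => Bmax sqf j (2 * Real.sqrt t)) := fun j =>
    (continuous_Bmax sqf j).comp (by fun_prop)
  have hint : ∫ t in x..(2 * x), ‖SB k t‖ ^ 4 ≤ C1 * (K ^ 6 / x ^ 2) * (x +
      ∑ j ∈ Finset.range (2 * k + 4), E j * ∫ t in x..(2 * x), Bmax sqf j (2 * Real.sqrt t)) := by
    have g1 : ∫ t in x..(2 * x), ‖SB k t‖ ^ 4 ≤ ∫ t in x..(2 * x), C1 * (K ^ 6 / x ^ 2) * (1 +
        ∑ j ∈ Finset.range (2 * k + 4), E j * Bmax sqf j (2 * Real.sqrt t)) := by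
      apply intervalIntegral.integral_mono_on (by linarith)
      · exact ((continuous_norm.comp (continuous_SB k)).pow 4).intervalIntegrable _ _
      · refine Continuous.intervalIntegrable ?_ _ _
        refine continuous_const.mul (continuous_const.add ?_)
        exact continuous_finsetSum _ fun j _ => continuous_const.mul (hcB j)
      · exact hpt
    refine g1.trans (le_of_eq ?_)
    rw [intervalIntegral.integral_const_mul, intervalIntegral.integral_add,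
      intervalIntegral.integral_finsetSum]
    · simp only [intervalIntegral.integral_const_mul, intervalIntegral.integral_const,
        smul_eq_mul, mul_one]
      congr 2
      ring
    · intro j _
      exact (continuous_const.mul (hcB j)).intervalIntegrable _ _
    · exact continuous_const.intervalIntegrable _ _
    · refine Continuous.intervalIntegrable ?_ _ _
      exact continuous_finsetSum _ fun j _ => continuous_const.mul (hcB j)
  refine hint.trans ?_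
  obtain ⟨Z, hZ⟩ : ∃ Z : ℝ, Z = x / K ^ 2 := ⟨_, rfl⟩
  have hZ0 : 0 < Z := by rw [hZ]; positivity
  -- each block
  have hblock : ∀ j, E j * (∫ t in x..(2 * x), Bmax sqf j (2 * Real.sqrt t)) ≤
      (32 * C2 * C3 * C4 * x * Z ^ (b + 2 * δ)) *
        (W * (((2 : ℝ) ^ j * (1 / Z)) /
          ((1 + 2 * ((2 : ℝ) ^ j * (1 / Z))) * (1 + (2 : ℝ) ^ j * (1 / Z))))) := by
    intro j
    have hyj : (2 : ℝ) ^ j * (1 / Z) = y j ^ 2 := by
      rw [hy, hZ, ← hs2 j, ← hrx]; field_simp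
    rw [hyj]
    obtain ⟨P, hPd⟩ : ∃ P : ℝ, P = (2 : ℝ) ^ j := ⟨_, rfl⟩
    have hP0 : 0 < P := by rw [hPd]; positivity
    have a0 := int_rt sqf j r hr0
    rw [hrx] at a0
    have a1 : ∫ t in x..(2 * x), Bmax sqf j (2 * Real.sqrt t)
        ≤ (2 * r) * (C3 * ((j : ℝ) + 1) ^ 4 * (4 * r) * Q sqf (blk j) (4 * r)) :=
      a0.trans
        (mul_le_mul_of_nonneg_left (hM sqf j (4 * r) (by positivity)) (by positivity))
    have a2 := Qsqf_bound h3 b δ C4 hQ j (4 * r) (s j) (by positivity) (by rw [hs])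
    rw [← hPd] at a2
    have a3 := hP j
    rw [← hPd] at a3
    have hsj := hs0 j
    have hyP : y j = K * s j / r := by rw [hy]
    have a4 : s j ^ 3 / (4 * r) ≤ y j ^ 3 := by
      rw [hyP, div_pow, div_le_div_iff₀ (by positivity) (by positivity)]
      have e1 : s j ^ 3 * r ^ 3 = (s j ^ 3 * r) * x := by rw [← hrx]; ring
      rw [e1]
      calc (s j ^ 3 * r) * x ≤ (s j ^ 3 * r) * K ^ 3 :=
            mul_le_mul_of_nonneg_left hx2 (by positivity)
        _ ≤ 4 * ((s j ^ 3 * r) * K ^ 3) := by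
            have : 0 ≤ (s j ^ 3 * r) * K ^ 3 := by positivity
            linarith
        _ = (K * s j) ^ 3 * (4 * r) := by ring
    -- power of P
    have a5 : P ^ (b + 2 * δ) = (y j ^ 2) ^ (b + 2 * δ) * Z ^ (b + 2 * δ) := by
      rw [← Real.mul_rpow (by positivity) hZ0.le]
      congr 1
      rw [← hyj, ← hPd]
      field_simp
    have a6 : P ^ δ * P ^ (b + δ) = P ^ (b + 2 * δ) := by
      rw [← Real.rpow_add hP0]; congr 1; ring
    have a7 := wt_bound G hG (y j) (b + 2 * δ) (hy0 j) (by linarith) (by linarith)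
    rw [← hW] at a7
    have hQ0 := Q_nonneg sqf (blk j) (4 * r)
    have hj4 : (0 : ℝ) ≤ ((j : ℝ) + 1) ^ 4 := by positivity
    have hEj := hE0 j
    have hyj0 := hy0 j
    calc E j * (∫ t in x..(2 * x), Bmax sqf j (2 * Real.sqrt t))
        ≤ E j * ((2 * r) * (C3 * ((j : ℝ) + 1) ^ 4 * (4 * r) * Q sqf (blk j) (4 * r))) :=
          mul_le_mul_of_nonneg_left a1 hEj.le
      _ ≤ E j * ((2 * r) * (C3 * (C2 * P ^ δ) * (4 * r) *
            (4 * (1 + s j ^ 3 / (4 * r)) * (C4 * P ^ (b + δ))))) := by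
          gcongr
      _ ≤ E j * ((2 * r) * (C3 * (C2 * P ^ δ) * (4 * r) *
            (4 * (1 + y j ^ 3) * (C4 * P ^ (b + δ))))) := by
          gcongr
      _ = (32 * C2 * C3 * C4 * x) * (E j * (1 + y j ^ 3) * (P ^ δ * P ^ (b + δ))) := by
          rw [← hrx]
          ring
      _ = (32 * C2 * C3 * C4 * x) * (E j * (1 + y j ^ 3) *
            ((y j ^ 2) ^ (b + 2 * δ) * Z ^ (b + 2 * δ))) := by rw [a6, a5]
      _ = (32 * C2 * C3 * C4 * x * Z ^ (b + 2 * δ)) *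
            (E j * (1 + y j ^ 3) * (y j ^ 2) ^ (b + 2 * δ)) := by ring
      _ ≤ _ := by
          apply mul_le_mul_of_nonneg_left _ (by positivity)
          rw [hE]
          exact a7
  have hsum : ∑ j ∈ Finset.range (2 * k + 4), E j * (∫ t in x..(2 * x), Bmax sqf j (2 * Real.sqrt t))
      ≤ (32 * C2 * C3 * C4 * x * Z ^ (b + 2 * δ)) * W := by
    refine (Finset.sum_le_sum fun j _ => hblock j).trans ?_
    rw [← Finset.mul_sum, ← Finset.mul_sum]
    have := geo_sum (1 / Z) (by positivity) (2 * k + 4)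
    apply mul_le_mul_of_nonneg_left _ (by positivity)
    calc W * _ ≤ W * 1 := mul_le_mul_of_nonneg_left this hW0.le
      _ = W := mul_one W
  -- powers
  have hKε : 1 ≤ K ^ ε := Real.one_le_rpow hK1 hε.le
  have hpow : Z ^ (b + 2 * δ) ≤ K ^ ε * Z ^ b := by
    have q1 : Z ^ (b + 2 * δ) = Z ^ b * Z ^ (2 * δ) := Real.rpow_add hZ0 _ _
    have q2 : Z ^ (2 * δ) ≤ K ^ ε := by
      have hle : Z ≤ K := by
        rw [hZ, div_le_iff₀ (by positivity)]
        calc x ≤ K ^ 3 := hx2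
          _ = K * K ^ 2 := by ring
      calc Z ^ (2 * δ) ≤ K ^ (2 * δ) := Real.rpow_le_rpow hZ0.le hle (by linarith)
        _ ≤ K ^ ε := Real.rpow_le_rpow_of_exponent_le hK1 hδε
    rw [q1, mul_comm]
    exact mul_le_mul_of_nonneg_right q2 (by positivity)
  rw [← hZ]
  obtain ⟨Y, hYd⟩ : ∃ Y : ℝ, Y = Z ^ b := ⟨_, rfl⟩
  have hY0 : 0 ≤ Y := by rw [hYd]; positivity
  rw [← hYd] at hpow ⊢
  have hfin : ∑ j ∈ Finset.range (2 * k + 4), E j * (∫ t in x..(2 * x), Bmax sqf j (2 * Real.sqrt t))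
      ≤ 32 * C2 * C3 * C4 * W * (x * (K ^ ε * Y)) := by
    calc _ ≤ (32 * C2 * C3 * C4 * x * Z ^ (b + 2 * δ)) * W := hsum
      _ = (32 * C2 * C3 * C4 * W * x) * Z ^ (b + 2 * δ) := by ring
      _ ≤ (32 * C2 * C3 * C4 * W * x) * (K ^ ε * Y) :=
          mul_le_mul_of_nonneg_left hpow (by positivity)
      _ = _ := by ring
  obtain ⟨B, hB⟩ : ∃ B : ℝ, B = 32 * C2 * C3 * C4 * W := ⟨_, rfl⟩
  have hB0 : 0 ≤ B := by rw [hB]; positivity
  rw [← hB] at hfin ⊢
  calc C1 * (K ^ 6 / x ^ 2) * (x + _) ≤ C1 * (K ^ 6 / x ^ 2) * (x + B * (x * (K ^ ε * Y))) := by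
        apply mul_le_mul_of_nonneg_left _ (by positivity)
        linarith
    _ = C1 * (K ^ 6 / x) * (1 + B * (K ^ ε * Y)) := by
        field_simp
    _ ≤ C1 * (K ^ 6 / x) * ((1 + B) * K ^ ε * (1 + Y)) := by
        apply mul_le_mul_of_nonneg_left _ (by positivity)
        have e1 : 0 ≤ K ^ ε * Y := by positivity
        have e2 : 0 ≤ B * K ^ ε := by positivity
        nlinarith [e1, e2]
    _ = _ := by ring

end Pool.Agent.Lib.MP_3ee548_nt.RS.H76
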