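import Pool.Agent.Lib.MP_3ee548_nt.RS.Iface

set_option autoImplicit false

open scoped BigOperators
open Classical

namespace Pool.Agent.Lib.MP_3ee548_nt.RS.H76

open Pool.Agent.Lib.MP_3ee548_nt.RS

theorem e_add1 (x y : ℝ) : e (x + y) = e x * e y := by
  unfold e
  rw [← Complex.exp_add]
  congr 1
  push_cast
  ring

theorem qpos1 (h : Pos1Statement) : Qpos1Statement := by
  intro lam w D F T hT hDF hw0 hw1
  have key := h (ℕ × ℕ) (fun p => lam p.1 + lam p.2) (fun p => w p.1 * w p.2) (D ×ˢ D) (F ×ˢ F) T hT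
    (Finset.product_subset_product hDF hDF)
    (by
      intro p hp
      rw [Finset.mem_product] at hp
      exact mul_nonneg (hw0 _ hp.1) (hw0 _ hp.2))
    (by
      intro p hp
      rw [Finset.mem_product] at hp
      have h1 := hw1 _ hp.1
      have h3 := hw1 _ hp.2
      nlinarith)
  have heq : ∀ t : ℝ, ‖∑ i ∈ F, ((w i : ℝ) : ℂ) * e (t * lam i)‖ ^ 4
      = ‖∑ p ∈ F ×ˢ F, (((w p.1 * w p.2 : ℝ)) : ℂ) * e (t * (lam p.1 + lam p.2))‖ ^ 2 := by
    intro t
    have h1 : ∑ p ∈ F ×ˢ F, (((w p.1 * w p.2 : ℝ)) : ℂ) * e (t * (lam p.1 + lam p.2))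
        = (∑ i ∈ F, ((w i : ℝ) : ℂ) * e (t * lam i)) ^ 2 := by
      rw [sq, Finset.sum_mul_sum, Finset.sum_product]
      refine Finset.sum_congr rfl fun i _ => Finset.sum_congr rfl fun j _ => ?_
      rw [mul_add, e_add1]
      push_cast
      ring
    rw [h1, norm_pow, ← pow_mul]
  simp only [heq]
  exact key

end Pool.Agent.Lib.MP_3ee548_nt.RS.H76
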