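import Pool.Agent.Lib.MP_3ee548_nt.RS.Iface

set_option autoImplicit false

namespace Pool.Agent.Lib.MP_3ee548_nt.RS.H76

open Pool.Agent.Lib.MP_3ee548_nt.RS

theorem sq_root (w z : ℂ) (hw : 0 < w.re) (h : w ^ 2 = z) : z ^ (1 / 2 : ℂ) = w := by
  rw [← h, show (1 / 2 : ℂ) = (2⁻¹ : ℂ) by norm_num]
  exact Complex.sq_cpow_two_inv hw

theorem root1 (hY : YfactStatement) : Root1Statement := by
  intro N X mu hN hX hNX hmu
  obtain ⟨hY0, hYe, -, -⟩ := (hY N hN).1 mu hmu
  obtain ⟨Y, hYd⟩ : ∃ Y : ℝ, Y = YY N mu := ⟨_, rfl⟩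
  rw [← hYd] at hY0 hYe
  have hra : (ra N X) ^ 2 = (N : ℂ) - ((X ^ 2 - N ^ 2 / X ^ 2) / 2 : ℝ) * Complex.I := by
    have hXc : (X : ℂ) ≠ 0 := by exact_mod_cast hX.ne'
    unfold ra
    apply Complex.ext
    · simp only [pow_two, Complex.mul_re, Complex.sub_re, Complex.sub_im, Complex.ofReal_re,
        Complex.ofReal_im, Complex.mul_im, Complex.I_re, Complex.I_im]
      field_simp
      ring
    · simp only [pow_two, Complex.mul_re, Complex.sub_re, Complex.sub_im, Complex.ofReal_re,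
        Complex.ofReal_im, Complex.mul_im, Complex.I_re, Complex.I_im]
      field_simp
      ring
  have hre : 0 < (ra N X).re := by
    have : (ra N X).re = (X + N / X) / 2 := by simp [ra]
    rw [this]; positivity
  refine ⟨sq_root _ _ hre hra, ?_⟩
  -- the second root
  obtain ⟨rb, hrb⟩ : ∃ rb : ℂ, rb = (((Y + 1 / (N * Y)) / 2 : ℝ) : ℂ)
      - (((Y - 1 / (N * Y)) / 2 : ℝ) : ℂ) * Complex.I := ⟨_, rfl⟩
  have hrb2 : rb ^ 2 = ((1 / N : ℝ) : ℂ) - 2 * mu * Complex.I := by
    have h4 : 2 * mu = (Y ^ 2 - 1 / (N * Y) ^ 2) / 2 := by rw [hYe]; ring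
    have h5 : (2 * mu * Complex.I : ℂ) = (((Y ^ 2 - 1 / (N * Y) ^ 2) / 2 : ℝ) : ℂ) * Complex.I := by
      rw [← h4]; push_cast; ring
    rw [h5, hrb]
    apply Complex.ext
    · simp only [pow_two, Complex.mul_re, Complex.sub_re, Complex.sub_im, Complex.ofReal_re,
        Complex.ofReal_im, Complex.mul_im, Complex.I_re, Complex.I_im]
      field_simp
      ring
    · simp only [pow_two, Complex.mul_re, Complex.sub_re, Complex.sub_im, Complex.ofReal_re,
        Complex.ofReal_im, Complex.mul_im, Complex.I_re, Complex.I_im]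
      field_simp
      ring
  have hrbre : 0 < rb.re := by
    have : rb.re = (Y + 1 / (N * Y)) / 2 := by simp [hrb]
    rw [this]; positivity
  rw [sq_root rb _ hrbre hrb2]
  unfold EE h0 e
  rw [← hYd, Complex.ofReal_exp, ← Complex.exp_add]
  congr 1
  rw [hrb]
  unfold ra
  apply Complex.ext
  · simp only [Complex.mul_re, Complex.sub_re, Complex.sub_im, Complex.ofReal_re, Complex.neg_re,
        Complex.ofReal_im, Complex.mul_im, Complex.I_re, Complex.I_im, Complex.add_re, Complex.neg_im,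
        Complex.re_ofNat, Complex.im_ofNat]
    field_simp
    ring
  · simp only [Complex.mul_re, Complex.sub_re, Complex.sub_im, Complex.ofReal_re, Complex.neg_re,
        Complex.ofReal_im, Complex.mul_im, Complex.I_re, Complex.I_im, Complex.add_im, Complex.neg_im,
        Complex.re_ofNat, Complex.im_ofNat]
    field_simp
    ring

end Pool.Agent.Lib.MP_3ee548_nt.RS.H76
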